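import Pool.Agent.H.MP_db38ce_nt.E

namespace Pool.Agent.Results.MP_db38ce_nt.AllGe4

open Finset Pool.Agent.H.MP_db38ce_nt

/-- `z` is multiplicatively dependent: some nonzero integer exponent vector gives product `1`
(the product is computed in `ℚ`). -/
def MulDep {m : ℕ} (z : Fin m → ℤ) : Prop :=
  ∃ k : Fin m → ℤ, k ≠ 0 ∧ ∏ i, (z i : ℚ) ^ k i = 1

/-- `a` is `k`-multiplicatively dependent: some `k`-subtuple is dependent and every
`(k-1)`-subtuple is independent; subtuples are given by strictly increasing index maps. -/
def KDep (k : ℕ) {n : ℕ} (a : Fin n → ℤ) : Prop :=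
  (∃ e : Fin k ↪o Fin n, MulDep (fun j => a (e j))) ∧
    ∀ e : Fin (k - 1) ↪o Fin n, ¬ MulDep (fun j => a (e j))

theorem kdep_of_circ {n : ℕ} (hn : 1 ≤ n) (a : Fin n → ℤ) (h : Circ (fun i => (a i : ℚ))) :
    KDep n a := by
  classical
  constructor
  · obtain ⟨k, hk, hk'⟩ := h.1
    refine ⟨(OrderIso.refl _).toOrderEmbedding, k, ?_, by simpa using hk'⟩
    intro h0
    exact hk ⟨0, by omega⟩ (by rw [h0]; rfl)
  · rintro e ⟨k, hk, hk'⟩
    have hinj : Function.Injective e := e.injective
    have hns : ∃ i, ¬ ∃ j, e j = i := by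
      by_contra hc
      push Not at hc
      have := Fintype.card_le_of_surjective e hc
      simp at this
      omega
    have key := h.2 (Function.extend e k 0) (by
      rw [← hk', ← prod_subset (subset_univ (univ.map e.toEmbedding)), prod_map]
      · apply prod_congr rfl
        intro j _
        have : Function.extend e k 0 (e j) = k j := hinj.extend_apply _ _ j
        simp [this]
      · intro x _ hx
        rw [Function.extend_apply' _ _ _ (by simpa using hx)]
        simp) (by
      obtain ⟨i, hi⟩ := hns
      exact ⟨i, by rw [Function.extend_apply' _ _ _ hi]; rfl⟩)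
    apply hk
    funext j
    have := key (e j)
    rwa [hinj.extend_apply] at this

theorem result (n : ℕ) (hn : 4 ≤ n) :
    {a : Fin n → ℤ | Function.Injective a ∧ (∀ i, 1 < a i) ∧ KDep n a ∧
      KDep n (fun i => a i + 1)}.Infinite := by
  obtain ⟨G, h1, h2, h3, h4⟩ := fam_all n hn
  choose z hz0 hz using h1
  have hG : ∀ s, (fun i => (((z s i : ℕ) : ℤ) : ℚ)) = G s := by
    intro s; funext i; rw [hz]; simp
  refine Set.infinite_of_injective_forall_mem (f := fun s i => ((z s i : ℕ) : ℤ)) ?_ ?_
  · intro s s' h
    apply h4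
    rw [← hG, ← hG]
    funext i
    have h5 : ((z s i : ℕ) : ℤ) = z s' i := congrFun h i
    rw [h5]
  · intro s
    refine ⟨?_, ?_, ?_, ?_⟩
    · have := (h2 s).inj (by omega) (fun i => by rw [hz]; have := hz0 s i; positivity)
      intro i j hij
      apply this
      rw [hz, hz]
      have h5 : ((z s i : ℕ) : ℤ) = z s j := hij
      exact_mod_cast h5
    · intro i
      have g1 := (h2 s).ne_one (by omega) i
      rw [hz] at g1
      have g2 : z s i ≠ 1 := by exact_mod_cast g1
      have := hz0 s i
      simp only
      omega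
    · apply kdep_of_circ (by omega)
      rw [hG]; exact h2 s
    · apply kdep_of_circ (by omega)
      convert h3 s using 1
      funext i
      rw [hz]; simp

end Pool.Agent.Results.MP_db38ce_nt.AllGe4
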